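import Mathlib
import Pool.Agent.Helper14D.Stm

/-!
# Integrality of the sections, by valuation rings
-/

set_option autoImplicit false

open MvPolynomial

namespace Pool.Agent.Hx18.VD

open Pool.Agent.Helper14D

section gauss

variable {R : Type*} [CommRing R] {Γ : Type*} [LinearOrderedCommGroupWithZero Γ]
  (w : Valuation R Γ)

lemma coeff_mul_le {p q : Polynomial R} {a b : Γ} (hp : ∀ j, w (p.coeff j) ≤ a)
    (hq : ∀ j, w (q.coeff j) ≤ b) (j : ℕ) : w ((p * q).coeff j) ≤ a * b := by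
  rw [Polynomial.coeff_mul]
  refine Valuation.map_sum_le w fun x _ => ?_
  rw [map_mul]
  exact mul_le_mul' (hp _) (hq _)

lemma coeff_pow_le {p : Polynomial R} {a : Γ} (hp : ∀ j, w (p.coeff j) ≤ a) (n : ℕ) (j : ℕ) :
    w ((p ^ n).coeff j) ≤ a ^ n := by
  induction n generalizing j with
  | zero =>
    rw [pow_zero, pow_zero, Polynomial.coeff_one]
    split_ifs
    · simp
    · simp
  | succ n ih =>
    rw [pow_succ, pow_succ]
    exact coeff_mul_le w ih hp j

lemma coeff_prod_le {ι : Type*} (s : Finset ι) (p : ι → Polynomial R) (a : ι → Γ)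
    (hp : ∀ i ∈ s, ∀ j, w ((p i).coeff j) ≤ a i) (j : ℕ) :
    w ((∏ i ∈ s, p i).coeff j) ≤ ∏ i ∈ s, a i := by
  classical
  induction s using Finset.induction_on generalizing j with
  | empty =>
    rw [Finset.prod_empty, Finset.prod_empty, Polynomial.coeff_one]
    split_ifs
    · simp
    · simp
  | insert i s hi ih =>
    rw [Finset.prod_insert hi, Finset.prod_insert hi]
    exact coeff_mul_le w (hp i (by simp))
      (fun j => ih (fun i hi' => hp i (by simp [hi'])) j) j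

lemma eval_le_one {p : Polynomial R} (hp : ∀ j, w (p.coeff j) ≤ 1) {x : R} (hx : w x ≤ 1) :
    w (p.eval x) ≤ 1 := by
  rw [Polynomial.eval_eq_sum_range]
  refine Valuation.map_sum_le w fun j _ => ?_
  rw [map_mul, map_pow]
  exact mul_le_one' (hp j) (pow_le_one' hx _)

end gauss

section main

variable {N : ℕ} {τ : Type} [Fintype τ] [DecidableEq τ]
  (u v : τ → MvPolynomial (Fin (N + 1)) ℚ)
  {Γ : Type*} [LinearOrderedCommGroupWithZero Γ] (w : Valuation (MvPolynomial (Fin (N + 1)) ℚ) Γ)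

/-- the larger of the two values -/
noncomputable def gg (t : τ) : Γ := max (w (u t)) (w (v t))

/-- the largest value of a section -/
noncomputable def As (M1 : ℕ) (i0 : Fin (N + 1)) : Γ := w (X i0) * ∏ t, gg u v w t ^ M1

omit [DecidableEq τ] in
lemma WW_le (M1 : ℕ) (i0 : Fin (N + 1)) (hmax : ∀ i, w (X i) ≤ w (X i0)) (β : Ix N τ M1) :
    w (WW u v M1 β) ≤ As u v w M1 i0 := by
  unfold WW As
  rw [map_mul, map_prod]
  refine mul_le_mul' (hmax _) (Finset.prod_le_prod' fun t _ => ?_)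
  rw [map_mul, map_pow, map_pow]
  have hb : (β.2 t : ℕ) + (M1 - (β.2 t : ℕ)) = M1 := by
    have := (β.2 t).isLt
    omega
  calc w (u t) ^ (β.2 t : ℕ) * w (v t) ^ (M1 - (β.2 t : ℕ))
      ≤ gg u v w t ^ (β.2 t : ℕ) * gg u v w t ^ (M1 - (β.2 t : ℕ)) :=
        mul_le_mul' (pow_le_pow_left' (le_max_left _ _) _) (pow_le_pow_left' (le_max_right _ _) _)
    _ = gg u v w t ^ M1 := by rw [← pow_add, hb]

omit [DecidableEq τ] in
lemma WW_eq (M1 : ℕ) (i0 : Fin (N + 1)) : ∃ β : Ix N τ M1,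
    w (WW u v M1 β) = As u v w M1 i0 := by
  classical
  refine ⟨(i0, fun t => if w (v t) ≤ w (u t) then ⟨M1, by omega⟩ else 0), ?_⟩
  unfold WW As
  rw [map_mul, map_prod]
  congr 1
  refine Finset.prod_congr rfl fun t _ => ?_
  rw [map_mul, map_pow, map_pow]
  unfold gg
  dsimp only
  split_ifs with h
  · rw [max_eq_left h]
    simp
  · rw [max_eq_right (le_of_not_ge h)]
    simp

omit [DecidableEq τ] in
lemma UU_coeff_le (b : τ → ℕ) (j : ℕ) : w ((UU u v b).coeff j) ≤ ∏ t, gg u v w t ^ b t := by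
  unfold UU
  refine coeff_prod_le w _ _ _ (fun t _ j => coeff_pow_le w (fun j => ?_) _ j) j
  rw [Polynomial.coeff_sub, Polynomial.X_mul_C, Polynomial.coeff_C_mul_X]
  rw [Polynomial.coeff_C]
  rcases Nat.eq_zero_or_pos j with h0 | h0
  · subst h0
    simp [gg]
  · rw [if_neg (by omega), zero_sub, Valuation.map_neg]
    split_ifs
    · exact le_max_right _ _
    · simp

omit [DecidableEq τ] in
lemma UU_natDegree_le (b : τ → ℕ) : (UU u v b).natDegree ≤ ∑ t, b t := by
  unfold UU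
  refine (Polynomial.natDegree_prod_le _ _).trans (Finset.sum_le_sum fun t _ => ?_)
  refine Polynomial.natDegree_pow_le.trans ?_
  have : (Polynomial.C (u t) - Polynomial.X * Polynomial.C (v t)).natDegree ≤ 1 := by
    refine (Polynomial.natDegree_sub_le _ _).trans ?_
    rw [Polynomial.natDegree_C, Polynomial.X_mul_C]
    refine max_le (by omega) ?_
    exact (Polynomial.natDegree_C_mul_le _ _).trans Polynomial.natDegree_X_le
  calc b t * _ ≤ b t * 1 := Nat.mul_le_mul_left _ this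
    _ = b t := mul_one _

omit [DecidableEq τ] in
lemma good_value (hQ : ∀ a : ℚ, a ≠ 0 → w (C a) = 1) :
    ∃ n : ℕ, ∀ t, w (u t - C (n : ℚ) * v t) = gg u v w t := by
  classical
  have hsub : ∀ t, {n : ℕ | w (u t - C (n : ℚ) * v t) ≠ gg u v w t}.Subsingleton := by
    intro t n hn m hm
    by_contra hnm
    have hC : ∀ n : ℕ, w (C (n : ℚ)) ≤ 1 := by
      intro n
      by_cases h0 : (n : ℚ) = 0
      · rw [h0]
        simp
      · rw [hQ _ h0]
    have hle : ∀ n : ℕ, w (u t - C (n : ℚ) * v t) ≤ gg u v w t := by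
      intro n
      refine (Valuation.map_sub w _ _).trans (max_le_max le_rfl ?_)
      rw [map_mul]
      calc w (C (n : ℚ)) * w (v t) ≤ 1 * w (v t) := mul_le_mul' (hC n) le_rfl
        _ = w (v t) := one_mul _
    have h1 : w (u t - C (n : ℚ) * v t) < gg u v w t := lt_of_le_of_ne (hle n) hn
    have h2 : w (u t - C (m : ℚ) * v t) < gg u v w t := lt_of_le_of_ne (hle m) hm
    have h3 : w (C ((m : ℚ) - n) * v t) < gg u v w t := by
      have : C ((m : ℚ) - n) * v t = (u t - C (n : ℚ) * v t) - (u t - C (m : ℚ) * v t) := by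
        rw [C_sub]
        ring
      rw [this]
      exact (Valuation.map_sub w _ _).trans_lt (max_lt h1 h2)
    have hnm' : ((m : ℚ) - n) ≠ 0 := by
      rw [sub_ne_zero]
      intro h
      exact hnm (by exact_mod_cast h.symm)
    rw [map_mul, hQ _ hnm', one_mul] at h3
    have h4 : w (u t) < gg u v w t := by
      have : u t = (u t - C (n : ℚ) * v t) + C (n : ℚ) * v t := by ring
      rw [this]
      refine (Valuation.map_add w _ _).trans_lt (max_lt h1 ?_)
      rw [map_mul]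
      calc w (C (n : ℚ)) * w (v t) ≤ 1 * w (v t) := mul_le_mul' (hC n) le_rfl
        _ = w (v t) := one_mul _
        _ < _ := h3
    exact absurd (max_lt h4 h3) (lt_irrefl _)
  have hfin : (⋃ t, {n : ℕ | w (u t - C (n : ℚ) * v t) ≠ gg u v w t}).Finite :=
    Set.finite_iUnion fun t => (hsub t).finite
  obtain ⟨n, hn⟩ := hfin.exists_notMem
  refine ⟨n, fun t => ?_⟩
  by_contra h
  exact hn (Set.mem_iUnion.mpr ⟨t, h⟩)

omit [DecidableEq τ] [Fintype τ] in
lemma gg_ne (hw : ∀ f, f ≠ 0 → w f ≠ 0) (hu : ∀ t, u t ≠ 0) (t : τ) : gg u v w t ≠ 0 := by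
  have h1 : 0 < w (u t) := zero_lt_iff.mpr (hw _ (hu t))
  exact (lt_of_lt_of_le h1 (le_max_left _ _)).ne'

omit [DecidableEq τ] in
lemma As_pow (hw : ∀ f, f ≠ 0 → w f ≠ 0) (hu : ∀ t, u t ≠ 0) (c : τ → ℤ) (kk M1 : ℕ)
    (b : τ → ℕ) (hb : ∀ t, (b t : ℤ) = c t + kk * M1) (i0 : Fin (N + 1))
    (hrel : ∏ t, (gg u v w t) ^ (c t) = w (X i0) ^ kk) :
    As u v w M1 i0 ^ kk = ∏ t, gg u v w t ^ b t := by
  unfold As
  rw [mul_pow, ← hrel, ← Finset.prod_pow, ← Finset.prod_mul_distrib]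
  refine Finset.prod_congr rfl fun t _ => ?_
  have hg := gg_ne u v w hw hu t
  rw [← pow_mul, ← zpow_natCast (gg u v w t) (M1 * kk), ← zpow_add₀ hg,
    ← zpow_natCast (gg u v w t) (b t), hb t]
  congr 1
  push_cast
  ring

lemma wp_le (M1 : ℕ) (i0 : Fin (N + 1)) (hmax : ∀ i, w (X i) ≤ w (X i0)) (t : τ)
    (β : Ix N τ M1) (hβ : (β.2 t : ℕ) < M1) :
    w (wp u v M1 t β) * gg u v w t ≤ As u v w M1 i0 := by
  unfold wp As
  rw [map_mul, mul_assoc]
  refine mul_le_mul' (hmax _) ?_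
  rw [map_mul, map_prod, ← Finset.mul_prod_erase Finset.univ _ (Finset.mem_univ t), mul_right_comm]
  refine mul_le_mul' ?_ (Finset.prod_le_prod' fun t' _ => ?_)
  · rw [map_mul, map_pow, map_pow]
    have hb : (β.2 t : ℕ) + (M1 - 1 - (β.2 t : ℕ)) + 1 = M1 := by omega
    calc w (u t) ^ (β.2 t : ℕ) * w (v t) ^ (M1 - 1 - (β.2 t : ℕ)) * gg u v w t
        ≤ gg u v w t ^ (β.2 t : ℕ) * gg u v w t ^ (M1 - 1 - (β.2 t : ℕ)) * gg u v w t :=
          mul_le_mul' (mul_le_mul' (pow_le_pow_left' (le_max_left _ _) _)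
            (pow_le_pow_left' (le_max_right _ _) _)) le_rfl
      _ = gg u v w t ^ M1 := by rw [← pow_add, ← pow_succ, hb]
  · rw [map_mul, map_pow, map_pow]
    have hb : (β.2 t' : ℕ) + (M1 - (β.2 t' : ℕ)) = M1 := by
      have := (β.2 t').isLt
      omega
    calc w (u t') ^ (β.2 t' : ℕ) * w (v t') ^ (M1 - (β.2 t' : ℕ))
        ≤ gg u v w t' ^ (β.2 t' : ℕ) * gg u v w t' ^ (M1 - (β.2 t' : ℕ)) :=
          mul_le_mul' (pow_le_pow_left' (le_max_left _ _) _)
            (pow_le_pow_left' (le_max_right _ _) _)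
      _ = gg u v w t' ^ M1 := by rw [← pow_add, hb]

end main

section val

variable {N : ℕ}

/-- the valuation on polynomials -/
noncomputable abbrev wO
    (O : ValuationSubring (FractionRing (MvPolynomial (Fin (N + 1)) ℚ))) :
    Valuation (MvPolynomial (Fin (N + 1)) ℚ) O.ValueGroup :=
  O.valuation.comap (algebraMap (MvPolynomial (Fin (N + 1)) ℚ)
    (FractionRing (MvPolynomial (Fin (N + 1)) ℚ)))

lemma wO_ne (O : ValuationSubring (FractionRing (MvPolynomial (Fin (N + 1)) ℚ)))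
    (f : MvPolynomial (Fin (N + 1)) ℚ) (hf : f ≠ 0) : wO O f ≠ 0 := by
  rw [Valuation.comap_apply, Valuation.ne_zero_iff]
  intro h
  exact hf (IsFractionRing.injective _ (FractionRing (MvPolynomial (Fin (N + 1)) ℚ))
    (h.trans (map_zero _).symm))

lemma wO_C (O : ValuationSubring (FractionRing (MvPolynomial (Fin (N + 1)) ℚ)))
    (hO : ∀ a : ℚ, algebraMap ℚ _ a ∈ O) (a : ℚ) (ha : a ≠ 0) :
    wO O (C a) = 1 := by
  have h0 : ∀ a : ℚ, wO O (C a) ≤ 1 := by
    intro a
    rw [Valuation.comap_apply]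
    have h1 : algebraMap (MvPolynomial (Fin (N + 1)) ℚ)
        (FractionRing (MvPolynomial (Fin (N + 1)) ℚ)) (C a) = algebraMap ℚ _ a := by
      rw [← MvPolynomial.algebraMap_eq,
        ← IsScalarTower.algebraMap_apply]
    rw [h1]
    exact (ValuationSubring.valuation_le_one_iff O _).mpr (hO a)
  refine le_antisymm (h0 a) ?_
  have h2 : wO O (C a) * wO O (C a⁻¹) = 1 := by
    rw [← map_mul, ← C_mul, mul_inv_cancel₀ ha, C_1, map_one]
  calc (1 : O.ValueGroup) = wO O (C a) * wO O (C a⁻¹) := h2.symm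
    _ ≤ wO O (C a) * 1 := mul_le_mul' le_rfl (h0 _)
    _ = wO O (C a) := mul_one _

lemma int_of_val (h : S_val) (S : Set (MvPolynomial (Fin (N + 1)) ℚ))
    (g : MvPolynomial (Fin (N + 1)) ℚ)
    (hg : ∀ O : ValuationSubring (FractionRing (MvPolynomial (Fin (N + 1)) ℚ)),
      (∀ a : ℚ, algebraMap ℚ _ a ∈ O) → (∀ s ∈ S, wO O s ≤ 1) → wO O g ≤ 1) :
    IsIntegral (Algebra.adjoin ℚ S) g := by
  set E := FractionRing (MvPolynomial (Fin (N + 1)) ℚ) with hE
  have hinj : Function.Injective (algebraMap (MvPolynomial (Fin (N + 1)) ℚ) E) :=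
    IsFractionRing.injective _ _
  set B : Subring (MvPolynomial (Fin (N + 1)) ℚ) := (Algebra.adjoin ℚ S).toSubring with hB
  set A : Subring E := B.map (algebraMap (MvPolynomial (Fin (N + 1)) ℚ) E) with hA
  have h1 : IsIntegral A (algebraMap (MvPolynomial (Fin (N + 1)) ℚ) E g) := by
    refine h E A _ fun O hAO => ?_
    have hO : ∀ a : ℚ, algebraMap ℚ E a ∈ O := by
      intro a
      apply hAO
      refine ⟨C a, ?_, ?_⟩
      · exact (Algebra.adjoin ℚ S).algebraMap_mem a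
      · rw [← MvPolynomial.algebraMap_eq]
        exact (IsScalarTower.algebraMap_apply ℚ (MvPolynomial (Fin (N + 1)) ℚ) E a).symm
    rw [← ValuationSubring.valuation_le_one_iff]
    refine hg O hO fun s hs => ?_
    rw [Valuation.comap_apply, ValuationSubring.valuation_le_one_iff]
    apply hAO
    exact ⟨s, Algebra.subset_adjoin hs, rfl⟩
  have h2 : IsIntegral (Algebra.adjoin ℚ S) (algebraMap (MvPolynomial (Fin (N + 1)) ℚ) E g) := by
    obtain ⟨p, hp, hp0⟩ := h1
    let e : B ≃+* A := Subring.equivMapOfInjective B _ hinj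
    refine ⟨p.map (e.symm : A →+* B), hp.map _, ?_⟩
    rw [Polynomial.eval₂_map]
    rw [← hp0]
    congr 1
    ext a
    obtain ⟨a', rfl⟩ := e.surjective a
    simp only [RingHom.comp_apply]
    change algebraMap (Algebra.adjoin ℚ S) E (e.symm (e a')) = _
    rw [e.symm_apply_apply]
    rfl
  exact (isIntegral_algebraMap_iff hinj).mp h2

end val

theorem t_ints (h : S_val) : S_ints := by
  intro N τ _ _ u v c kk M1 b hu hv hrel hkk hM1 hb hsum
  -- the common facts
  have key : ∀ O : ValuationSubring (FractionRing (MvPolynomial (Fin (N + 1)) ℚ)),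
      (∀ a : ℚ, algebraMap ℚ _ a ∈ O) → ∃ i0, (∀ i, wO O (X i) ≤ wO O (X i0)) ∧
        As u v (wO O) M1 i0 ^ kk = ∏ t, gg u v (wO O) t ^ b t := by
    intro O hO
    obtain ⟨i0, h1, h2⟩ := hrel O hO
    exact ⟨i0, h1, As_pow u v (wO O) (wO_ne O) hu c kk M1 b hb i0 h2⟩
  have hA1 : ∀ (O : ValuationSubring (FractionRing (MvPolynomial (Fin (N + 1)) ℚ)))
      (i0 : Fin (N + 1)), (∀ s ∈ Set.range (WW u v M1), wO O s ≤ 1) →
      As u v (wO O) M1 i0 ≤ 1 := by
    intro O i0 hs
    obtain ⟨β, hβ⟩ := WW_eq u v (wO O) M1 i0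
    rw [← hβ]
    exact hs _ ⟨β, rfl⟩
  refine ⟨fun j => ?_, fun β => ?_, fun γ hγ => ?_⟩
  · refine int_of_val h _ _ fun O hO hs => ?_
    obtain ⟨i0, h1, h2⟩ := key O hO
    refine (UU_coeff_le u v (wO O) b j).trans ?_
    rw [← h2]
    exact pow_le_one' (hA1 O i0 hs) _
  · refine int_of_val h _ _ fun O hO hs => ?_
    obtain ⟨i0, h1, h2⟩ := key O hO
    refine (WW_le u v (wO O) M1 i0 h1 β).trans ?_
    have hc : ∀ j, wO O ((UU u v b).coeff j) ≤ 1 := by
      intro j
      by_cases hj : j < ∑ t, b t + 1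
      · exact hs _ ⟨⟨j, hj⟩, rfl⟩
      · rw [Polynomial.coeff_eq_zero_of_natDegree_lt
          (lt_of_le_of_lt (UU_natDegree_le u v b) (by omega)), map_zero]
        exact zero_le_one
    obtain ⟨n, hn⟩ := good_value u v (wO O) (wO_C O hO)
    have hx : wO O (C (n : ℚ)) ≤ 1 := by
      by_cases h0 : (n : ℚ) = 0
      · rw [h0]
        simp
      · exact (wO_C O hO _ h0).le
    have h3 := eval_le_one (wO O) hc hx
    have h4 : wO O ((UU u v b).eval (C (n : ℚ))) = As u v (wO O) M1 i0 ^ kk := by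
      rw [h2]
      unfold UU
      rw [Polynomial.eval_prod, map_prod]
      refine Finset.prod_congr rfl fun t _ => ?_
      rw [Polynomial.eval_pow, map_pow, ← hn t, Polynomial.eval_sub, Polynomial.eval_C,
        Polynomial.X_mul_C, Polynomial.eval_mul, Polynomial.eval_C, Polynomial.eval_X, mul_comm (v t)]
    rw [h4] at h3
    exact (pow_le_one_iff hkk.ne').mp h3
  · refine int_of_val h _ _ fun O hO hs => ?_
    obtain ⟨i0, h1, h2⟩ := key O hO
    have hA := hA1 O i0 hs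
    rw [map_prod]
    have hg : ∀ t, gg u v (wO O) t ≠ 0 := gg_ne u v (wO O) (wO_ne O) hu
    have hX : As u v (wO O) M1 i0 ≠ 0 := by
      intro h0
      rw [h0, zero_pow hkk.ne'] at h2
      exact Finset.prod_ne_zero_iff.mpr (fun t _ => pow_ne_zero _ (hg t)) h2.symm
    have h5 : (∏ t, wO O (wp u v M1 t (γ t) ^ b t)) * As u v (wO O) M1 i0 ^ kk
        ≤ As u v (wO O) M1 i0 ^ (∑ t, b t) := by
      rw [h2, ← Finset.prod_mul_distrib, ← Finset.prod_pow_eq_pow_sum]
      refine Finset.prod_le_prod' fun t _ => ?_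
      rw [map_pow, ← mul_pow]
      exact pow_le_pow_left' (wp_le u v (wO O) M1 i0 h1 t (γ t) (hγ t)) _
    have h6 : As u v (wO O) M1 i0 ^ (∑ t, b t) ≤ As u v (wO O) M1 i0 ^ kk :=
      pow_le_pow_right_of_le_one' hA hsum
    have h7 := h5.trans h6
    have hp : 0 < As u v (wO O) M1 i0 ^ kk := zero_lt_iff.mpr (pow_ne_zero _ hX)
    have h8 : (∏ t, wO O (wp u v M1 t (γ t) ^ b t)) * As u v (wO O) M1 i0 ^ kk
        ≤ 1 * As u v (wO O) M1 i0 ^ kk := by rwa [one_mul]
    exact (mul_le_mul_iff_left₀ hp).mp h8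

end Pool.Agent.Hx18.VD
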